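import Pool.Agent.H34.ND.Dich

/-! # Which determinantal models of the primes satisfy Cramér's conjecture?

Cramér's conjecture `limsup (p_{n+1} - p_n) / (log p_n) ^ 2 = 1` comes from the model in which the
primes are replaced by a random set which contains `n` with probability `1 / log n`, independently
for different `n`. Here the independence is replaced by a determinantal structure: there is a
Hermitian kernel `K` such that a finite set `S` is contained in the random set with probability
`det (K i j)_{i, j ∈ S}`, and `K n n ~ 1 / log n`. Such a set is negatively correlated. The theorem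
says which kernels lead to Cramér's constant `1`: what matters is the squared Hilbert–Schmidt norm
`HS(n) = ∑ |K i j| ^ 2` (over `n < i, j ≤ n + (log n) ^ 2`) of the kernel on the windows of the
critical length, whose trace is `~ log n`.

* The constant is `1` only if for every `ε > 0` the `n` with `HS(n) ≤ ε log n` are so numerous that
  the sum of `n ^ (ε - 1)` over them diverges.
* If the sections of `K` on these windows are at most `1 - c` for some `c > 0` and large `n`, then
  this condition is also sufficient.
* If `HS(n) ≥ β log n` for all large `n`, then the constant is at most `1 - β / 4`.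

For instance, with a spectral gap, Cramér's conjecture holds if `HS(n) = o(log n)`, and fails if
`HS(n) ≥ β log n` for large `n`.

Proof. The window `(n, n + lam (log n) ^ 2]` is empty with probability `det (1 - K)`. The eigenvalues
`x` of the section of `K` are in `[0, 1]`, their sum is `~ lam log n`, and the sum of their squares
is the squared Hilbert–Schmidt norm; and `exp (-x - x² / c) ≤ 1 - x ≤ exp (-x - x² / 2)`, the first
for `x ≤ 1 - c`. The rows of `K` satisfy `∑ |K i j| ^ 2 ≤ K i i`, which shows that `HS` changes
little if the windows are shortened a little. The constant is the critical exponent of the series of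
these probabilities, by a weighted second moment argument for negatively dependent sets
(`Pool.Agent.H34.ND.Main`); determinantal sets are negatively dependent by Fischer's inequality. -/

set_option autoImplicit false

namespace Pool.Agent.Results.MP_b0c12c_nt.DeterminantalCriterion

open MeasureTheory Filter Topology Finset Pool.Agent.H34.ND
open scoped ComplexOrder

/-- **A criterion for Cramér's conjecture in determinantal models.** -/
theorem result (Ω : Type) [MeasurableSpace Ω] (P : Measure Ω) [IsProbabilityMeasure P]
    (E : ℕ → Set Ω) (K : ℕ → ℕ → ℂ) (h : Determinantal P E K)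
    (hp : Tendsto (fun n : ℕ => P.real (E n) * Real.log n) atTop (𝓝 1)) :
    -- necessity
    ((∀ᵐ ω ∂P, cramerConst {n | ω ∈ E n} = 1) → ∀ ε : ℝ, 0 < ε →
      ¬ Summable fun n : ℕ => if hs K n ≤ ε * Real.log n then (n : ℝ) ^ (ε - 1) else 0) ∧
    -- sufficiency, if the sections of `K` on the windows are at most `1 - c`
    (∀ c : ℝ, 0 < c → (∀ᶠ n : ℕ in atTop, (((1 - c : ℝ) : ℂ) • (1 : Matrix (Ioc n (win 1 n))
        (Ioc n (win 1 n)) ℂ) - Matrix.of fun i j : Ioc n (win 1 n) => K i j).PosSemidef) →
      (∀ ε : ℝ, 0 < ε →
        ¬ Summable fun n : ℕ => if hs K n ≤ ε * Real.log n then (n : ℝ) ^ (ε - 1) else 0) →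
      ∀ᵐ ω ∂P, {n | ω ∈ E n}.Infinite ∧ cramerConst {n | ω ∈ E n} = 1) ∧
    -- a quantitative form of the necessity
    (∀ β : ℝ, 0 < β → (∀ᶠ n : ℕ in atTop, β * Real.log n ≤ hs K n) →
      ∀ᵐ ω ∂P, {n | ω ∈ E n}.Infinite ∧
        cramerConst {n | ω ∈ E n} ≤ ((1 - β / 4 : ℝ) : EReal)) := by
  have hcr := h.negDep.cramer (spread_of_density hp)
  refine ⟨?_, ?_, ?_⟩
  · intro h1 ε hε
    obtain ⟨ω, h2, h3⟩ := (h1.and hcr).exists
    rw [h3.2] at h2
    have h4 : critical (emp P E) = 1 := by exact_mod_cast h2
    exact h.necessary hp h4 hε
  · intro c hc hgap hsm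
    have h4 := h.sufficient hp hc hgap hsm
    rw [h4] at hcr
    exact hcr
  · intro β hβ hev
    have h4 := h.critical_lt_one hp hβ hev
    filter_upwards [hcr] with ω hω
    refine ⟨hω.1, ?_⟩
    rw [hω.2]
    exact EReal.coe_le_coe_iff.2 h4

end Pool.Agent.Results.MP_b0c12c_nt.DeterminantalCriterion
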