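import Pool.Agent.H86.T5

set_option autoImplicit false

namespace Pool.Agent.Results.MP_b0c12c_nt.JointLawFewPowerDistances
open Finset
open Classical

/-- The joint law, on small multiples of the mean gap, of the distances from `x + d 1, ..., x + d r` to the next primes, for `x` in an
arbitrary set `A` of integers in `(N, 2N]` and almost all `r`-tuples `d` of sums of at most `k` powers of `b`. For every `r` there is
`C` such that for all bases `b ≥ 2`, all `0 < lam ≤ Lam ≤ 1` and `ε > 0` there are `k` and `N₀` such that for every `N ≥ N₀` there is a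
finite nonempty set `D` of positive integers up to `ε N`, each a sum of at most `k` powers of `b`, with the following property. For
EVERY set `A` of integers in `(N, 2N]` and all integers `lam log N ≤ H 1, ..., H r ≤ Lam log N`, all but at most `ε |D|^r` of the
`r`-tuples `d` of elements of `D` are such that for every set `I` of places the number of the `x ∈ A` for which `(x + d i, x + d i + H i]`
contains a prime for `i ∈ I` and no prime for `i ∉ I` is `∏_{i ∈ I} (H i / log N) · (|A| + O(Lam N))`, with the constant `C`. -/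
theorem result (r : ℕ) : ∃ C : ℝ, ∀ b : ℕ, 2 ≤ b → ∀ lam Lam ε : ℝ, 0 < lam → lam ≤ Lam → Lam ≤ 1 → 0 < ε →
    ∃ k N₀ : ℕ, ∀ N : ℕ, N₀ ≤ N → ∃ D : Finset ℕ, D.Nonempty ∧
      (∀ d ∈ D, 1 ≤ d ∧ (d : ℝ) ≤ ε * N ∧ ∃ l : List ℕ, l.length ≤ k ∧ d = (l.map (fun e => b ^ e)).sum) ∧
      ∀ A : Finset ℕ, A ⊆ Ioc N (2 * N) → ∀ H : Fin r → ℕ, (∀ i, lam * Real.log N ≤ H i ∧ (H i : ℝ) ≤ Lam * Real.log N) →
        (((Fintype.piFinset (fun _ : Fin r => D)).filter (fun d : Fin r → ℕ => ¬ ∀ I : Finset (Fin r),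
          |((A.filter (fun x : ℕ =>
            (∀ i ∈ I, ∃ p : ℕ, p.Prime ∧ x + d i < p ∧ p ≤ x + d i + H i) ∧
            (∀ i ∉ I, ∀ p : ℕ, p.Prime → x + d i < p → x + d i + H i < p))).card : ℝ) - (∏ i ∈ I, (H i / Real.log N)) * A.card| ≤
            C * Lam * (∏ i ∈ I, (H i / Real.log N)) * N)).card : ℝ) ≤
          ε * (D.card : ℝ) ^ r := by
  obtain ⟨C₁, hC₁, n₁, hpair⟩ := Pool.Agent.H86.PM.pair_mom
  refine ⟨1 + r * (C₁ + 3), fun b hb lam Lam ε hlam hlL hLam1 hε => ?_⟩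
  obtain ⟨δ₀, hδ₀, n₂, hgood⟩ := Pool.Agent.H86.PM.good_most r lam hlam (lam ^ 2) ε (by positivity) hε
  obtain ⟨δ', hδ'⟩ : ∃ δ' : ℝ, δ' = min (min 1 δ₀) ε := ⟨_, rfl⟩
  have hδ'0 : 0 < δ' := by rw [hδ']; positivity
  have hδ'1 : δ' ≤ 1 := by rw [hδ']; exact (min_le_left _ _).trans (min_le_left _ _)
  have hδ'2 : δ' ≤ δ₀ := by rw [hδ']; exact (min_le_left _ _).trans (min_le_right _ _)
  have hδ'3 : δ' ≤ ε := by rw [hδ']; exact min_le_right _ _
  obtain ⟨b', e, hb', hbe⟩ : ∃ b' e : ℕ, 3 ≤ b' ∧ b' = b ^ e := by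
    by_cases h : 3 ≤ b
    · exact ⟨b, 1, h, by simp⟩
    · exact ⟨4, 2, by norm_num, by rw [show b = 2 by omega]; norm_num⟩
  obtain ⟨k, n₃, hmain⟩ := Pool.Agent.H86.PW.shift3 b' hb' lam δ' hlam hδ'0 hδ'1
  obtain ⟨n₄, h4⟩ := Pool.Agent.H373R2.T7.ev_L' 1
  refine ⟨k, n₁ + n₂ + n₃ + n₄ + 2, fun N hN => ?_⟩
  obtain ⟨D, hD, hD1, hD2⟩ := hmain N (by omega)
  have hN0 : (2 : ℝ) ≤ N := by exact_mod_cast (by omega : 2 ≤ N)
  refine ⟨D, hD, fun d hd => ?_, fun A hA H hH => ?_⟩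
  · obtain ⟨h1, ⟨l, hl1, hl2⟩, h3⟩ := hD1 d hd
    refine ⟨h1, h3.trans (mul_le_mul_of_nonneg_right hδ'3 (by linarith)), l.map (fun j => e * j), by rw [List.length_map]; exact hl1, ?_⟩
    rw [hl2, List.map_map]
    congr 1
    apply List.map_congr_left
    intro j _
    simp only [Function.comp]
    rw [hbe, ← pow_mul]
  have hDN : ∀ d ∈ D, d ≤ N := by
    intro d hd
    have h1 := (hD1 d hd).2.2
    have h2 : δ' * N ≤ 1 * N := mul_le_mul_of_nonneg_right hδ'1 (by linarith)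
    have h3 : (d : ℝ) ≤ N := by linarith
    exact_mod_cast h3
  have hlog : 1 ≤ Real.log N := h4 N (by omega)
  have hH' : ∀ i, lam * Real.log N ≤ H i ∧ (H i : ℝ) ≤ Real.log N := fun i => ⟨(hH i).1, (hH i).2.trans (by nlinarith)⟩
  refine le_trans ?_ (hgood N (by omega) δ' D hδ'0.le hδ'2 hDN hD2 A hA H hH')
  apply Nat.cast_le.2
  apply card_le_card
  intro d hd
  rw [mem_filter] at hd ⊢
  refine ⟨hd.1, fun hG => hd.2 fun I => ?_⟩
  have hdN : ∀ i, d i ≤ N := fun i => hDN _ ((Fintype.mem_piFinset.1 hd.1) i)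
  have h5 := Pool.Agent.H86.PM.pattern_law r C₁ hC₁ N lam Lam (lam ^ 2) hlam hlL hLam1 rfl H hlog hH A hA d hdN (fun i => by
    have h6 := hpair N (by omega) (H i)
    simp only [← Pool.Agent.H86.PM.an_cast] at h6
    exact h6) hG I
  have h6 : A.filter (fun x : ℕ => (∀ i ∈ I, ∃ p : ℕ, p.Prime ∧ x + d i < p ∧ p ≤ x + d i + H i) ∧
      (∀ i ∉ I, ∀ p : ℕ, p.Prime → x + d i < p → x + d i + H i < p)) =
      A.filter (fun x => (∀ i ∈ I, 1 ≤ Pool.Agent.H86.PM.an (H i) (x + d i)) ∧ ∀ i ∉ I, Pool.Agent.H86.PM.an (H i) (x + d i) = 0) := by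
    apply filter_congr
    intro x _
    constructor
    · rintro ⟨h7, h8⟩
      refine ⟨fun i hi => (Pool.Agent.H86.PM.an_pos_iff _ _).2 (h7 i hi), fun i hi => ?_⟩
      by_contra h9
      obtain ⟨p, hp, hp1, hp2⟩ := (Pool.Agent.H86.PM.an_pos_iff (H i) (x + d i)).1 (by omega)
      have := h8 i hi p hp hp1
      omega
    · rintro ⟨h7, h8⟩
      refine ⟨fun i hi => (Pool.Agent.H86.PM.an_pos_iff _ _).1 (h7 i hi), fun i hi p hp hp1 => ?_⟩
      by_contra h9
      have := (Pool.Agent.H86.PM.an_pos_iff (H i) (x + d i)).2 ⟨p, hp, hp1, by omega⟩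
      have := h8 i hi
      omega
  rw [h6]
  exact h5

end Pool.Agent.Results.MP_b0c12c_nt.JointLawFewPowerDistances
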