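import Mathlib
import Pool.Agent.H68.GS.Sign

set_option autoImplicit false

/-!
# Near and far next primes after the pairwise sums of the elements of dense sets

(1) Fix `r`, `A`, `δ > 0` and for each pair `e = (u, v)` two window lengths `lp e, lm e > 0` (in units of `log N`).  There are
`κ > 0` and `N₀` such that for all `N ≥ N₀` the following holds for every graph `G` on `r` vertices, every choice of linear
forms `y_e(x) = a x_u + b x_v + c` with `1 ≤ a, b ≤ A`, `0 ≤ c ≤ A N` at the edges, every set `S` of tuples which splits at the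
edges and has at least `δ N ^ r` elements in `[1, N] ^ r`, and EVERY set `I` of edges: at least `κ N ^ r` of the tuples `x`
in `S` are such that for the edges `e` in `I` the window `(y_e, y_e + lp e * log N]` contains at least `lp e` primes (the mean
number, so at least one), while for the edges `e` outside `I` the window `(y_e, y_e + lm e * log N]` contains at most `lm e` primes.

(2) For all `r`, `δ > 0` and `0 < lam < 1` there are `κ > 0` and `N₀` such that for all `N ≥ N₀`, all sets `A_1, ..., A_r` of at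
least `δ N` integers in `[1, N]` and every set `I` of pairs `i < j` at least `κ N ^ r` of the tuples `x` in `A_1 × ... × A_r`
are such that for the pairs in `I` there is a prime `p` with `x_i + x_j < p ≤ x_i + x_j + lam log N`, and for the pairs
outside `I` there is no prime `p` with `x_i + x_j < p ≤ x_i + x_j + (1 - lam) log N`.
-/

namespace Pool.Agent.Results.MP_b0c12c_nt.PrimesAfterPairwiseSums

open Finset Pool.Agent.H68.GR Pool.Agent.H68.GS

/-- the number of primes `p` with `y < p ≤ y + L`, for real `L ≥ 0` -/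
noncomputable def primesIn (y : ℕ) (L : ℝ) : ℕ := ((Ioc y (y + ⌊L⌋₊)).filter Nat.Prime).card

/-- the tuples `x` with `1 ≤ x_i ≤ N` for all `i` -/
def tuples (r N : ℕ) : Finset (Fin r → ℕ) := Fintype.piFinset fun _ => Icc 1 N

/-- membership in `R` does not depend on the coordinate `x_i` -/
def NotDependingOn {r : ℕ} (R : Set (Fin r → ℕ)) (i : Fin r) : Prop :=
  ∀ (x : Fin r → ℕ) (t : ℕ), Function.update x i t ∈ R ↔ x ∈ R

/-- `S` is the intersection of a set not depending on `x_u` and a set not depending on `x_v` -/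
def SplitsAt {r : ℕ} (S : Set (Fin r → ℕ)) (u v : Fin r) : Prop :=
  ∃ R Q : Set (Fin r → ℕ), NotDependingOn R u ∧ NotDependingOn Q v ∧ S = R ∩ Q

/-- the edges of `G`, each written as a pair `(u, v)` with `u < v` -/
noncomputable def edges {r : ℕ} (G : SimpleGraph (Fin r)) : Finset (Fin r × Fin r) := by
  classical exact univ.filter fun e => e.1 < e.2 ∧ G.Adj e.1 e.2

lemma mem_edges {r : ℕ} {G : SimpleGraph (Fin r)} {e : Fin r × Fin r} : e ∈ edges G ↔ e.1 < e.2 ∧ G.Adj e.1 e.2 := by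
  unfold edges
  simp

open Classical in
/-- **Part (1).** -/
theorem general (r A : ℕ) (δ : ℝ) (lp lm : Fin r × Fin r → ℝ) (hδ : 0 < δ) (hlp : ∀ e, 0 < lp e) (hlm : ∀ e, 0 < lm e) :
    ∃ (κ : ℝ) (N₀ : ℕ), 0 < κ ∧ ∀ N : ℕ, N₀ ≤ N →
    ∀ (G : SimpleGraph (Fin r)) (a b c : Fin r × Fin r → ℕ) (S : Set (Fin r → ℕ)) (I : Set (Fin r × Fin r)),
      (∀ e ∈ edges G, 1 ≤ a e ∧ a e ≤ A ∧ 1 ≤ b e ∧ b e ≤ A ∧ c e ≤ A * N ∧ SplitsAt S e.1 e.2) →
      δ * (N : ℝ) ^ r ≤ (((tuples r N).filter (fun x => x ∈ S)).card : ℝ) →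
      κ * (N : ℝ) ^ r ≤ (((tuples r N).filter (fun x => x ∈ S ∧ ∀ e ∈ edges G,
        (e ∈ I → lp e ≤ primesIn (a e * x e.1 + b e * x e.2 + c e) (lp e * Real.log N)) ∧
        (e ∉ I → primesIn (a e * x e.1 + b e * x e.2 + c e) (lm e * Real.log N) ≤ lm e))).card : ℝ) := by
  -- for each set of signs and each number of edges
  have key : ∀ t : (Fin r × Fin r → Bool) × Fin (r * r + 1), ∃ κ : ℝ, 0 < κ ∧ ∃ N0 : ℕ,
      ∀ N : ℕ, N0 ≤ N → ∀ (D : Edges (Fin r) (Fin r × Fin r)) (c : Fin r × Fin r → ℕ) (T : Finset (Fin r × Fin r)), T ⊆ D.E →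
      T.card = t.2 → ∀ w : (Fin r → ℕ) → ℝ, (∀ x, 0 ≤ w x) → (∀ x, w x ≤ 1) →
      (∀ e ∈ D.E, ∀ x ∈ Icc 1 N, ∀ y ∈ Icc 1 N, D.a e * x + D.b e * y + c e ≤ 3 * A * N) →
      (∀ e ∈ D.E, SplitC 1 (fun x => (w x : ℂ)) (D.u e) (D.v e)) → δ * (Box (Fin r) N).card ≤ ∑ x ∈ Box (Fin r) N, w x →
      κ * (Box (Fin r) N).card ≤ ∑ x ∈ Box (Fin r) N, w x *
        ∏ e ∈ T, ind (if t.1 e = true then lp e else lm e) (t.1 e) N (D.L c e x) := by
    rintro ⟨s, k⟩
    exact all_edges (V := Fin r) (3 * A) (fun e => if s e = true then lp e else lm e) (fun e => by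
      split_ifs
      · exact hlp e
      · exact hlm e) s k δ hδ
  obtain ⟨κ, hκ, N0, h⟩ := unif (fun (t : (Fin r × Fin r → Bool) × Fin (r * r + 1)) (κ : ℝ) (N0 : ℕ) =>
      ∀ N : ℕ, N0 ≤ N → ∀ (D : Edges (Fin r) (Fin r × Fin r)) (c : Fin r × Fin r → ℕ) (T : Finset (Fin r × Fin r)), T ⊆ D.E →
      T.card = t.2 → ∀ w : (Fin r → ℕ) → ℝ, (∀ x, 0 ≤ w x) → (∀ x, w x ≤ 1) →
      (∀ e ∈ D.E, ∀ x ∈ Icc 1 N, ∀ y ∈ Icc 1 N, D.a e * x + D.b e * y + c e ≤ 3 * A * N) →
      (∀ e ∈ D.E, SplitC 1 (fun x => (w x : ℂ)) (D.u e) (D.v e)) → δ * (Box (Fin r) N).card ≤ ∑ x ∈ Box (Fin r) N, w x →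
      κ * (Box (Fin r) N).card ≤ ∑ x ∈ Box (Fin r) N, w x *
        ∏ e ∈ T, ind (if t.1 e = true then lp e else lm e) (t.1 e) N (D.L c e x)) (by
        intro t κ κ' n n' _ hκ hn h N hN D c T hT hk w hw0 hw1 hK hS hM
        exact (mul_le_mul_of_nonneg_right hκ (Nat.cast_nonneg _)).trans (h N (hn.trans hN) D c T hT hk w hw0 hw1 hK hS hM)) key
  refine ⟨κ, N0, hκ, fun N hN G a b c S I hG hM => ?_⟩
  let D : Edges (Fin r) (Fin r × Fin r) :=
    { u := fun e => e.1
      v := fun e => e.2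
      a := a
      b := b
      E := edges G
      ne := fun e he => (mem_edges.1 he).1.ne
      ha := fun e he => (hG e he).1
      hb := fun e he => (hG e he).2.2.1
      simple := by
        intro e he e' he' hne h
        have h1 := (mem_edges.1 he).1
        have h2 := (mem_edges.1 he').1
        apply hne
        rcases h with ⟨h3 | h3, h4 | h4⟩
        · rw [h3, h4] at h2; exact absurd h2 (lt_irrefl _)
        · exact Prod.ext h3.symm h4.symm
        · rw [h3, h4] at h2; exact absurd h2 (not_lt.2 h1.le)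
        · rw [h3, h4] at h2; exact absurd h2 (lt_irrefl _) }
  have hcard : (edges G).card < r * r + 1 := by
    refine Nat.lt_succ_of_le ?_
    calc (edges G).card ≤ (univ : Finset (Fin r × Fin r)).card := card_le_card (subset_univ _)
      _ = r * r := by rw [card_univ, Fintype.card_prod, Fintype.card_fin]
  set w : (Fin r → ℕ) → ℝ := fun x => if x ∈ S then 1 else 0 with hw
  have hw0 : ∀ x, 0 ≤ w x := fun x => by simp only [hw]; split_ifs <;> norm_num
  have hw1 : ∀ x, w x ≤ 1 := fun x => by simp only [hw]; split_ifs <;> norm_num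
  have hsum : ∀ (q : (Fin r → ℕ) → Prop) [DecidablePred q], ∑ x ∈ Box (Fin r) N, (if q x then (1 : ℝ) else 0) = (((tuples r N).filter q).card : ℝ) := by
    intro q _
    rw [← sum_filter, sum_const, nsmul_eq_mul, mul_one]
    rfl
  have hBox : ((Box (Fin r) N).card : ℝ) = (N : ℝ) ^ r := by
    rw [card_Box, Fintype.card_fin]
    push_cast
    rfl
  have h1 := h (fun e => decide (e ∈ I), ⟨(edges G).card, hcard⟩) N hN D c (edges G) (Subset.refl _) rfl w hw0 hw1
    (fun e he x hx y hy => by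
      obtain ⟨h1, h2, h3, h4, h5, -⟩ := hG e he
      rw [mem_Icc] at hx hy
      have h6 : a e * x ≤ A * N := Nat.mul_le_mul h2 hx.2
      have h7 : b e * y ≤ A * N := Nat.mul_le_mul h4 hy.2
      show a e * x + b e * y + c e ≤ 3 * A * N
      have h8 : 3 * A * N = A * N + A * N + A * N := by ring
      omega)
    (fun e he => by
      obtain ⟨R, Q, hR, hQ, hRQ⟩ := (hG e he).2.2.2.2.2
      refine ⟨fun x => if x ∈ R then 1 else 0, fun x => if x ∈ Q then 1 else 0, fun x => by simp only; split_ifs <;> simp,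
        fun x => by simp only; split_ifs <;> simp, fun x t => ?_, fun x t => ?_, fun x => ?_⟩
      · simp only
        have : Function.update x e.1 t ∈ R ↔ x ∈ R := hR x t
        exact if_congr this rfl rfl
      · simp only
        have : Function.update x e.2 t ∈ Q ↔ x ∈ Q := hQ x t
        exact if_congr this rfl rfl
      · simp only [hw]
        rw [hRQ]
        by_cases h9 : x ∈ R <;> by_cases h10 : x ∈ Q <;> simp [h9, h10])
    (by
      rw [hBox]
      simp only [hw]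
      rw [hsum]
      exact hM)
  rw [hBox] at h1
  refine h1.trans (le_of_eq ?_)
  rw [← hsum]
  apply sum_congr rfl
  intro x _
  simp only [hw]
  by_cases hx : x ∈ S
  · rw [if_pos hx, one_mul]
    by_cases hall : ∀ e ∈ edges G,
        (e ∈ I → lp e ≤ primesIn (a e * x e.1 + b e * x e.2 + c e) (lp e * Real.log N)) ∧
        (e ∉ I → primesIn (a e * x e.1 + b e * x e.2 + c e) (lm e * Real.log N) ≤ lm e)
    · rw [if_pos ⟨hx, hall⟩]
      apply prod_eq_one
      intro e he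
      unfold ind Cond
      obtain ⟨h2, h3⟩ := hall e he
      by_cases heI : e ∈ I
      · simp only [heI, decide_true, if_true]
        exact if_pos (h2 heI)
      · simp only [heI, decide_false, Bool.false_eq_true, if_false]
        exact if_pos (h3 heI)
    · rw [if_neg (fun h => hall h.2)]
      push Not at hall
      obtain ⟨e, he, h2⟩ := hall
      apply prod_eq_zero he
      unfold ind Cond
      by_cases heI : e ∈ I
      · simp only [heI, decide_true, if_true]
        apply if_neg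
        intro h3
        exact absurd (h2 (fun _ => h3)).1 (fun h4 => h4 heI)
      · simp only [heI, decide_false, Bool.false_eq_true, if_false]
        apply if_neg
        intro h3
        have h4 := (h2 (fun h5 => absurd h5 heI)).2
        exact absurd h3 (not_le.2 h4)
  · rw [if_neg hx, zero_mul, if_neg (fun h => hx h.1)]

lemma splits_product {r : ℕ} (B : Fin r → Finset ℕ) (u v : Fin r) (huv : u ≠ v) :
    SplitsAt {x : Fin r → ℕ | ∀ i, x i ∈ B i} u v := by
  refine ⟨{x | ∀ i, i ≠ u → x i ∈ B i}, {x | x u ∈ B u}, fun x t => ?_, fun x t => ?_, ?_⟩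
  · simp only [Set.mem_ofPred_eq]
    constructor
    · intro h i hi
      have := h i hi
      rwa [Function.update_of_ne hi] at this
    · intro h i hi
      rw [Function.update_of_ne hi]
      exact h i hi
  · simp only [Set.mem_ofPred_eq]
    rw [Function.update_of_ne huv]
  · ext x
    simp only [Set.mem_ofPred_eq, Set.mem_inter_iff]
    constructor
    · intro h
      exact ⟨fun i _ => h i, h u⟩
    · rintro ⟨h1, h2⟩ i
      by_cases hi : i = u
      · rw [hi]; exact h2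
      · exact h1 i hi

open Classical in
/-- **Part (2).** -/
theorem products (r : ℕ) (δ lam : ℝ) (hδ : 0 < δ) (hl0 : 0 < lam) (hl1 : lam < 1) :
    ∃ (κ : ℝ) (N₀ : ℕ), 0 < κ ∧ ∀ N : ℕ, N₀ ≤ N →
    ∀ B : Fin r → Finset ℕ, (∀ i, B i ⊆ Icc 1 N) → (∀ i, δ * N ≤ (B i).card) → ∀ I : Set (Fin r × Fin r),
      κ * (N : ℝ) ^ r ≤ (((Fintype.piFinset B).filter (fun x => ∀ i j : Fin r, i < j →
        ((i, j) ∈ I → ∃ p : ℕ, p.Prime ∧ x i + x j < p ∧ (p : ℝ) ≤ ((x i + x j : ℕ) : ℝ) + lam * Real.log N) ∧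
        ((i, j) ∉ I → ∀ p : ℕ, p.Prime → x i + x j < p → ((x i + x j : ℕ) : ℝ) + (1 - lam) * Real.log N < p))).card : ℝ) := by
  obtain ⟨κ, N0, hκ, h⟩ := general r 1 (δ ^ r) (fun _ => lam) (fun _ => 1 - lam) (by positivity) (fun _ => hl0)
    (fun _ => by linarith)
  refine ⟨κ, max N0 1, hκ, fun N hN B hB hc I => ?_⟩
  have hn0 : N0 ≤ N := (le_max_left _ _).trans hN
  have hn1 : 1 ≤ N := (le_max_right _ _).trans hN
  have hL : 0 ≤ Real.log N := Real.log_nonneg (by exact_mod_cast hn1)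
  obtain ⟨S0, hS0⟩ : ∃ S0 : Set (Fin r → ℕ), S0 = {x : Fin r → ℕ | ∀ i, x i ∈ B i} := ⟨_, rfl⟩
  have hmem : ∀ x, x ∈ S0 ↔ ∀ i, x i ∈ B i := fun x => by rw [hS0]; rfl
  have h1 := h N hn0 ⊤ (fun _ => 1) (fun _ => 1) (fun _ => 0) S0 I (fun e he =>
    ⟨le_rfl, le_rfl, le_rfl, le_rfl, Nat.zero_le _, hS0 ▸ splits_product B e.1 e.2 (mem_edges.1 he).1.ne⟩) (by
    have h2 : (tuples r N).filter (fun x => x ∈ S0) = Fintype.piFinset B := by
      ext x
      simp only [tuples, mem_filter, Fintype.mem_piFinset, hmem]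
      exact ⟨fun h => h.2, fun h => ⟨fun i => hB i (h i), h⟩⟩
    rw [h2, Fintype.card_piFinset, ← mul_pow]
    push_cast
    calc (δ * (N : ℝ)) ^ r = ∏ _i : Fin r, (δ * (N : ℝ)) := by rw [prod_const, card_univ, Fintype.card_fin]
      _ ≤ ∏ i : Fin r, ((B i).card : ℝ) := prod_le_prod (fun _ _ => by positivity) (fun i _ => hc i))
  refine h1.trans (Nat.cast_le.2 (card_le_card ?_))
  intro x hx
  rw [mem_filter] at hx ⊢
  obtain ⟨-, hxS, hx2⟩ := hx
  refine ⟨Fintype.mem_piFinset.2 ((hmem x).1 hxS), fun i j hij => ?_⟩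
  obtain ⟨h3, h4⟩ := hx2 (i, j) (mem_edges.2 ⟨hij, hij.ne⟩)
  simp only [one_mul, add_zero] at h3 h4
  refine ⟨fun hI => ?_, fun hI p hp hlt => ?_⟩
  · have h5 : 0 < primesIn (x i + x j) (lam * Real.log N) := by
      have h6 := h3 hI
      have h7 : (0 : ℝ) < primesIn (x i + x j) (lam * Real.log N) := lt_of_lt_of_le hl0 h6
      exact_mod_cast h7
    unfold primesIn at h5
    rw [card_pos] at h5
    obtain ⟨p, hp⟩ := h5
    rw [mem_filter, mem_Ioc] at hp
    refine ⟨p, hp.2, hp.1.1, ?_⟩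
    have h6 : (⌊lam * Real.log N⌋₊ : ℝ) ≤ lam * Real.log N := Nat.floor_le (by positivity)
    have h7 : (p : ℝ) ≤ ((x i + x j : ℕ) : ℝ) + (⌊lam * Real.log N⌋₊ : ℝ) := by exact_mod_cast hp.1.2
    linarith
  · have h5 : primesIn (x i + x j) ((1 - lam) * Real.log N) = 0 := by
      have h6 := h4 hI
      have h7 : (primesIn (x i + x j) ((1 - lam) * Real.log N) : ℝ) < 1 := lt_of_le_of_lt h6 (by linarith)
      have h8 : primesIn (x i + x j) ((1 - lam) * Real.log N) < 1 := by exact_mod_cast h7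
      omega
    unfold primesIn at h5
    rw [card_eq_zero, filter_eq_empty_iff] at h5
    by_contra hcon
    apply h5 (x := p) _ hp
    rw [mem_Ioc]
    refine ⟨hlt, ?_⟩
    have h6 : (((p - (x i + x j) : ℕ)) : ℝ) ≤ (1 - lam) * Real.log N := by
      rw [Nat.cast_sub hlt.le]
      linarith [not_lt.1 hcon]
    have h7 := Nat.le_floor h6
    omega

open Classical in
/-- **Near and far next primes after the pairwise sums of the elements of dense sets.** -/
theorem result :
    (∀ (r A : ℕ) (δ : ℝ) (lp lm : Fin r × Fin r → ℝ), 0 < δ → (∀ e, 0 < lp e) → (∀ e, 0 < lm e) →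
      ∃ (κ : ℝ) (N₀ : ℕ), 0 < κ ∧ ∀ N : ℕ, N₀ ≤ N →
      ∀ (G : SimpleGraph (Fin r)) (a b c : Fin r × Fin r → ℕ) (S : Set (Fin r → ℕ)) (I : Set (Fin r × Fin r)),
        (∀ e ∈ edges G, 1 ≤ a e ∧ a e ≤ A ∧ 1 ≤ b e ∧ b e ≤ A ∧ c e ≤ A * N ∧ SplitsAt S e.1 e.2) →
        δ * (N : ℝ) ^ r ≤ (((tuples r N).filter (fun x => x ∈ S)).card : ℝ) →
        κ * (N : ℝ) ^ r ≤ (((tuples r N).filter (fun x => x ∈ S ∧ ∀ e ∈ edges G,
          (e ∈ I → lp e ≤ primesIn (a e * x e.1 + b e * x e.2 + c e) (lp e * Real.log N)) ∧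
          (e ∉ I → primesIn (a e * x e.1 + b e * x e.2 + c e) (lm e * Real.log N) ≤ lm e))).card : ℝ)) ∧
    (∀ (r : ℕ) (δ lam : ℝ), 0 < δ → 0 < lam → lam < 1 → ∃ (κ : ℝ) (N₀ : ℕ), 0 < κ ∧ ∀ N : ℕ, N₀ ≤ N →
      ∀ B : Fin r → Finset ℕ, (∀ i, B i ⊆ Icc 1 N) → (∀ i, δ * N ≤ (B i).card) → ∀ I : Set (Fin r × Fin r),
        κ * (N : ℝ) ^ r ≤ (((Fintype.piFinset B).filter (fun x => ∀ i j : Fin r, i < j →
          ((i, j) ∈ I → ∃ p : ℕ, p.Prime ∧ x i + x j < p ∧ (p : ℝ) ≤ ((x i + x j : ℕ) : ℝ) + lam * Real.log N) ∧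
          ((i, j) ∉ I → ∀ p : ℕ, p.Prime → x i + x j < p → ((x i + x j : ℕ) : ℝ) + (1 - lam) * Real.log N < p))).card : ℝ)) :=
  ⟨general, products⟩

end Pool.Agent.Results.MP_b0c12c_nt.PrimesAfterPairwiseSums
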