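import Pool.Agent.H73.KP.Sys3

/-!
# Cramér's constant is independent of the zeros of the zeta function, of the laws of all constellations and of the Poisson law

A system of generalised primes (Beurling primes) is a sequence `1 < q 0 < q 1 < ...` of real numbers; its generalised
integers are the products `gint q n = ∏ q (k - 1)` over the prime factors of `n` (with multiplicity, the factor being the
`k`-th prime number), one for every `n ≥ 1`, counted with multiplicity; for `q = 2, 3, 5, ...` one has `gint q n = n`.

The theorem: prescribe the zeros `1 / 2 ± i γ k` of the zeta function in `Re s > 1 / 3` with their multiplicities (any sequence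
with `O((T + 1) ^ ε)` terms in every window `[T, T + 1]`; if the Riemann hypothesis holds, for instance the ordinates of the
zeros of the Riemann zeta function), the laws `c D ∫ du / (log u) ^ |D|` of all constellations `D` (for instance with the constants
of Hardy and Littlewood) and a value `L ∈ [0, ∞]`. There are generalised primes with these zeros and these laws, with the
analogues of the Riemann hypothesis and of the Lindelöf hypothesis, whose number up to `x` is given by the explicit formula
(`explicit γ x`, a function of the zeros only) with the error `O(x ^ ε)` for every `ε > 0`, whose numbers in the intervals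
`(x, x + l log x]` follow the Poisson law with the mean `l`, for every `l > 0` (as Gallagher showed for the prime numbers on the
assumption of a uniform form of the conjecture of Hardy and Littlewood), and with
`limsup (q (n + 1) - q n) / (log (q n)) ^ 2 = L`. So the Riemann hypothesis, the Lindelöf hypothesis, the complete list of the
zeros (their correlations, their arithmetic nature, their multiplicities), the explicit formula, the laws of all
constellations and the Poisson law in the intervals of length `l log x` (so the exponential distribution of the gaps divided by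
their mean) together leave Cramér's constant undetermined in `[0, ∞]`.

Proof. The density `nd γ u = (main term - ∑ 2 cos (γ k log u) / √u) / log u`, where the zero `γ k` enters at `start γ k`, is positive,
and the integral of `u ^ (-s)` against it continues with the prescribed logarithmic singularities (`Pool.Agent.H49.BZ`, helper49). Cut
`(1, ∞)` into blocks of slowly growing masses `a b + 1` with respect to this density; the block gets `a b + 1` points: a random
pattern `D ⊆ [0, a b]` placed at a random position and wrapped around, and further points at large distances; or no pattern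
(this is the case of almost all blocks), and then a rotated copy of a deterministic configuration of `m (m ^ 2) ^ m` points, which
consists of one segment for every function `{0, ..., m - 1} → {0, ..., m ^ 2 - 1}` (`Pool.Agent.H73.KP`). Each
point is distributed with the density, whatever the pattern; the probabilities of the patterns solve a triangular system.
The method of conditional expectations for countably many tests (the exponential moments of the twisted sums
`∑_{q ≤ x} q ^ (-i m)` and of the numbers of all patterns), outside null sets that would create integer distances between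
neighbouring blocks, gives the sequence (`Pool.Agent.H73.KZ`, `Pool.Agent.H73.KP`, with helper87, helper49, helper93, helper82,
helper34, helper83). The Poisson law is that of the deterministic configurations. The count differs from the
integral of the density by at most the mass of one block, which is `O(x ^ ε)`. The gaps are `o((log x) ^ 2)` if `a b` grows slowly.
Then make sparse holes: the points in `(α, α + h α]` are moved to the right of `α + h α` (helper68); these are `O(x ^ ε)` points. The
integral of the discrepancy against `x ^ (-w - 1)` converges for `Re w > 0`, so the zeros do not change. The integral of the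
twisted discrepancy of frequency `m` continues the logarithm of the zeta function near the line of height `m` with a bound that is
uniform in `m`; the generalised integers are counted by the inversion formula for Mellin transforms applied to a Riesz mean and a
shift of the line of integration.
-/

set_option autoImplicit false

open Filter Topology MeasureTheory Complex

namespace Pool.Agent.Results.MP_b0c12c_nt.ZerosAndConstellations

open Pool.Agent.H49.BP (gint)

/-- The number of generalised primes up to `x`. -/
noncomputable def primeCount (q : ℕ → ℝ) (x : ℝ) : ℕ := {j : ℕ | q j ≤ x}.ncard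

/-- The number of generalised integers up to `x`, with multiplicity. -/
noncomputable def intCount (q : ℕ → ℝ) (x : ℝ) : ℕ := {n : ℕ | 1 ≤ n ∧ gint q n ≤ x}.ncard

/-- The number of the generalised primes `p ≤ x` such that `p + d` is a generalised prime for every `d ∈ D`. -/
noncomputable def tupleCount (q : ℕ → ℝ) (D : Finset ℕ) (x : ℝ) : ℕ :=
  {n : ℕ | q n ≤ x ∧ ∀ d ∈ D, ∃ k, q k = q n + d}.ncard

/-- The number of generalised primes in `(x, x + y]`. -/
noncomputable def windowCount (q : ℕ → ℝ) (x y : ℝ) : ℕ := {n : ℕ | x < q n ∧ q n ≤ x + y}.ncard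

/-- Every window `[T, T + 1]`, `T ≥ 0`, contains at most `C (T + 1) ^ ε` terms of the sequence, for every `ε > 0`, with a
constant `C` which depends on `ε`. -/
def Windows (γ : ℕ → ℝ) : Prop :=
  ∀ ε : ℝ, 0 < ε → ∃ C : ℝ, ∀ T : ℝ, 0 ≤ T → ∀ S : Finset ℕ,
    (∀ k ∈ S, T ≤ γ k ∧ γ k ≤ T + 1) → (S.card : ℝ) ≤ C * (T + 1) ^ ε

/-- The generalised primes `q` have the zeta function `Z s / (s - 1)` and satisfy the analogues of the Riemann hypothesis and of
the Lindelöf hypothesis: they increase strictly from `q 0 > 1`; their number up to `x` is `∫_2^x du / log u + O(x ^ (1 / 2 + ε))`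
and the number of the generalised integers up to `x` is `ρ x + O(x ^ (1 / 2 + ε))` for every `ε > 0`, with a `ρ > 0`; the
function `Z` is holomorphic in `Re s > 1 / 3` and `∑ (gint q n) ^ (-s) = Z s / (s - 1)` for `Re s > 1`; in `Re s > 1 / 2` one has
`Z s = s * exp (G s)` with a holomorphic function `G` that is at most `C √(log (|Im s| + 3))` for `Re s ≥ σ`, for every `σ > 1 / 2`. -/
def RHSystem (q : ℕ → ℝ) (Z : ℂ → ℂ) : Prop :=
  StrictMono q ∧ 1 < q 0 ∧
    (∀ ε : ℝ, 0 < ε → ∃ C : ℝ, ∀ x : ℝ, 2 ≤ x →
      |(primeCount q x : ℝ) - ∫ u in (2 : ℝ)..x, (Real.log u)⁻¹| ≤ C * x ^ (1 / 2 + ε)) ∧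
    (∃ ρ : ℝ, 0 < ρ ∧ ∀ ε : ℝ, 0 < ε → ∃ C : ℝ, ∀ x : ℝ, 1 ≤ x →
      |(intCount q x : ℝ) - ρ * x| ≤ C * x ^ (1 / 2 + ε)) ∧
    (∀ s : ℂ, 1 / 3 < s.re → AnalyticAt ℂ Z s) ∧
    (∀ s : ℂ, 1 < s.re → ∑' n : ℕ, ((gint q (n + 1) : ℝ) : ℂ) ^ (-s) = Z s / (s - 1)) ∧
    ∃ G : ℂ → ℂ, DifferentiableOn ℂ G {s | 1 / 2 < s.re} ∧
      (∀ s : ℂ, 1 / 2 < s.re → Z s = s * Complex.exp (G s)) ∧
      ∀ σ : ℝ, 1 / 2 < σ → ∃ C : ℝ, ∀ s : ℂ, σ ≤ s.re → ‖G s‖ ≤ C * √(Real.log (|s.im| + 3))

/-- The point from which on the zero of height `γ k` is felt: `exp (π N / (γ k))` with the least natural number `N` such that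
it is at least `(8 k + 9) ^ 2 * (1 + γ k)`. -/
noncomputable def start (γ : ℕ → ℝ) (k : ℕ) : ℝ :=
  Real.exp (Real.pi * ⌈γ k * (2 * Real.log (8 * k + 9) + Real.log (1 + γ k)) / Real.pi⌉₊ / γ k)

/-- The right side of the explicit formula: the integral from `1` to `x` of
`(1 - 1 / u - (u ^ (-1 / 2) - 1 / u) / 2 - ∑ 2 cos (γ k log u) / √u) / log u`, the sum over the `k` with `start γ k ≤ u`. -/
noncomputable def explicit (γ : ℕ → ℝ) (x : ℝ) : ℝ :=
  ∫ u in (1 : ℝ)..x, (((1 - u⁻¹) - 1 / 2 * ((√u)⁻¹ - u⁻¹)) / Real.log u -
    ∑' k, if start γ k ≤ u then 2 * Real.cos (γ k * Real.log u) / (√u * Real.log u) else 0)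

/-- The zeros of `Z` in the half-plane `Re s > 1 / 3` are the points `1 / 2 ± i γ k`, and the order of such a zero is the number
of the `k` with this ordinate. -/
def HasZeros (Z : ℂ → ℂ) (γ : ℕ → ℝ) : Prop :=
  ∀ s : ℂ, 1 / 3 < s.re → analyticOrderAt Z s = {k | s = 1 / 2 + γ k * I ∨ s = 1 / 2 - γ k * I}.encard

/-- Let `0 < γ 0 ≤ γ 1 ≤ ...` be any sequence with at most `O((T + 1) ^ ε)` terms in every window `[T, T + 1]`, let `c D ≥ 0` be
constants for the patterns `D` (finite sets of natural numbers with `0 ∈ D` and `|D| ≥ 2`; `c D' = 0` if `D'` contains a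
translate of a `D` with `c D = 0`), for instance the constants of Hardy and Littlewood, and let `L ∈ [0, ∞]`. There are
generalised primes with the analogues of the Riemann hypothesis and of the Lindelöf hypothesis such that
the zeros of the zeta function in `Re s > 1 / 3` are the points `1 / 2 ± i γ k` (with the multiplicities),
the number of the primes up to `x` is given by the explicit formula with the error `O(x ^ ε)` for every `ε > 0`,
the number of the `D`-tuples up to `x` is `c D ∫_2^x du / (log u) ^ |D| + O(x ^ (1 / 2 + ε))` for every `D` and `ε > 0`,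
the measure of the set of the `x ∈ [2, X]` with exactly `k` primes in `(x, x + l log x]`, divided by `X`, tends to
`exp (-l) l ^ k / k!` for every `l > 0` and every `k`, and the limit superior of `(q (n + 1) - q n) / (log (q n)) ^ 2` is `L`. -/
theorem result (γ : ℕ → ℝ) (hpos : ∀ k, 0 < γ k) (hmono : Monotone γ) (hwin : Windows γ)
    (c : Finset ℕ → ℝ) (hc : ∀ D, 0 ≤ c D)
    (hc0 : ∀ D D' : Finset ℕ, 0 ∈ D → 2 ≤ D.card → 0 ∈ D' → (∃ t, ∀ d ∈ D, t + d ∈ D') → c D = 0 → c D' = 0)
    (L : EReal) (hL : 0 ≤ L) :
    ∃ (q : ℕ → ℝ) (Z : ℂ → ℂ), RHSystem q Z ∧ HasZeros Z γ ∧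
      (∀ ε : ℝ, 0 < ε → ∃ C : ℝ, ∀ x : ℝ, 1 ≤ x → |(primeCount q x : ℝ) - explicit γ x| ≤ C * x ^ ε) ∧
      (∀ D : Finset ℕ, 0 ∈ D → 2 ≤ D.card → ∀ ε : ℝ, 0 < ε → ∃ C : ℝ, ∀ x : ℝ, 2 ≤ x →
        |(tupleCount q D x : ℝ) - c D * ∫ u in (2 : ℝ)..x, 1 / (Real.log u) ^ D.card| ≤ C * x ^ (1 / 2 + ε)) ∧
      (∀ l : ℝ, 0 < l → ∀ k : ℕ,
        Tendsto (fun X : ℝ => volume.real {x : ℝ | 2 ≤ x ∧ x ≤ X ∧ windowCount q x (l * Real.log x) = k} / X) atTop
          (𝓝 (Real.exp (-l) * l ^ k / (k.factorial : ℝ)))) ∧
      limsup (fun n => (((q (n + 1) - q n) / Real.log (q n) ^ 2 : ℝ) : EReal)) atTop = L := by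
  have hmt : ∀ {D D' : Finset ℕ}, Pool.Agent.H73.KT.mult D D' ≠ 0 → ∃ t, ∀ d ∈ D, t + d ∈ D' := by
    intro D D' h
    obtain ⟨t, _, h⟩ := Pool.Agent.H73.KT.mult_ne h
    exact ⟨t, h⟩
  obtain ⟨h, hlim, hup, _, _, hsm, hcr⟩ := Pool.Agent.H73.KZ.cra L hL
  obtain ⟨q, Z, hZ1, hZ2, hlaw, hcnt, hpoi, htop, hgap⟩ := Pool.Agent.H73.KP.sys_poisson hpos hmono hwin
    (Pool.Agent.H73.KT.nb_laws hc
      (fun D D' hD hD2 hD' hm => hc0 D D' hD hD2 hD' (hmt hm)) (Bad := fun _ => False) (fun _ _ _ h => h)
      (X := ∅) MeasurableSet.empty) hlim hup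
  refine ⟨q, Z, hZ1, hZ2, hcnt hsm, fun D hD hD2 ε hε => ?_, hpoi, hcr q hZ1.1 htop hgap⟩
  obtain ⟨C, hC⟩ := hlaw D hD hD2 ε hε
  refine ⟨C, fun x hx => ?_⟩
  rw [← Pool.Agent.H73.KT.nb_int (Bad := fun _ => False) (X := ∅) hD2 (fun h => h) hx]
  exact hC x hx

end Pool.Agent.Results.MP_b0c12c_nt.ZerosAndConstellations
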